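import Pool.Agent.Q197.RT.N

/-! # The zero-one law -/

set_option autoImplicit false

open Finset Filter Topology

namespace Q197.RT

open Q241.SW (digit digit_range Normal)

lemma ratio_lim : Tendsto (fun P : ℕ => (1 + Real.log P) / √(P : ℝ)) atTop (𝓝 0) := by
  have h1 : Tendsto (fun y : ℝ => (1 + Real.log y) / √y) atTop (𝓝 0) := by
    have h2 : Tendsto (fun y : ℝ => Real.log y / y ^ (1 / 2 : ℝ)) atTop (𝓝 0) :=
      (isLittleO_log_rpow_atTop (by norm_num : (0 : ℝ) < 1 / 2)).tendsto_div_nhds_zero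
    have h3 : Tendsto (fun y : ℝ => 1 / y ^ (1 / 2 : ℝ)) atTop (𝓝 0) := by
      simp_rw [one_div]
      exact tendsto_inv_atTop_zero.comp (tendsto_rpow_atTop (by norm_num))
    have h4 := h3.add h2
    rw [add_zero] at h4
    refine h4.congr fun y => ?_
    rw [Real.sqrt_eq_rpow, add_div]
  exact h1.comp tendsto_natCast_atTop_atTop

lemma normal_freq {b : ℕ} {x : ℝ} (h : Normal b x) : HasFreq b x (fun _ => 1 / b) := by
  intro d
  have h1 := h 1 one_pos (fun _ => d)
  rw [pow_one] at h1
  refine h1.congr fun N => ?_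
  congr 3
  refine filter_congr fun n _ => ?_
  constructor
  · intro h2
    have := h2 0
    simpa using this
  · intro h2 j
    have hj : (j : ℕ) = 0 := by omega
    rw [hj, add_zero]
    exact h2

theorem normal_iff {b : ℕ} (hb : 2 ≤ b) (x : ℝ) :
    Normal b x ↔ ∀ r : ℚ, HasFreq b (x + r) (fun _ => 1 / b) := by
  classical
  constructor
  · intro h r
    exact normal_freq (wall hb h r)
  · intro h
    by_contra hn
    obtain ⟨C, hC⟩ := few_translates hb hn
    have h1 := (ratio_lim.const_mul C).eventually (gt_mem_nhds (show C * 0 < 1 by norm_num))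
    obtain ⟨P, hP1, hP2⟩ := (h1.and (eventually_ge_atTop 1)).exists
    have h2 := hC P hP2 (fun _ => 1 / b)
    have h3 : cnt b x (fun _ => 1 / b) P = b ^ P - 1 := by
      unfold cnt
      rw [filter_true_of_mem, card_range]
      intro A _
      have := h ((A : ℚ) / ((b : ℚ) ^ P - 1))
      push_cast at this
      exact this
    have hbP : 1 < b ^ P := Nat.one_lt_pow (by omega) (by omega)
    have h4 : ((b ^ P - 1 : ℕ) : ℝ) = (b : ℝ) ^ P - 1 := by
      rw [Nat.cast_sub hbP.le]
      push_cast
      ring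
    rw [h3, h4] at h2
    have h5 : (0 : ℝ) < (b : ℝ) ^ P - 1 := by
      have : (1 : ℝ) < (b : ℝ) ^ P := by exact_mod_cast hbP
      linarith
    have h6 : C * ((1 + Real.log P) / √P) * ((b : ℝ) ^ P - 1) < 1 * ((b : ℝ) ^ P - 1) :=
      mul_lt_mul_of_pos_right hP1 h5
    linarith

end Q197.RT
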